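import Mathlib

set_option autoImplicit false
open Finset
open scoped Pointwise

/-! # Two-set sums and differences: the combinatorial core -/

namespace Pool.Agent.H58.Sds2

section subset

variable {G : Type*} [AddCommGroup G] [DecidableEq G]

/-- a nonempty subset of `A` with few twofold sums with `D` -/
theorem exists_petridis (A D : Finset G) (hA : A.Nonempty) :
    ∃ X ⊆ A, X.Nonempty ∧ (X + D + D).card * A.card ^ 2 ≤ (A + D).card ^ 2 * X.card := by
  have hA' : A ∈ A.powerset.erase ∅ :=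
    mem_erase_of_ne_of_mem hA.ne_empty (mem_powerset_self _)
  obtain ⟨X, hX, hmin⟩ := exists_min_image (A.powerset.erase ∅)
    (fun C ↦ ((C + D).card / C.card : ℚ)) ⟨A, hA'⟩
  rw [mem_erase, mem_powerset, ← nonempty_iff_ne_empty] at hX
  obtain ⟨hX0, hXA⟩ := hX
  have hX1 : 0 < X.card := hX0.card_pos
  have key : ∀ A' ⊆ A, (X + D).card * A'.card ≤ (A' + D).card * X.card := by
    intro A' hAA
    obtain rfl | hne := A'.eq_empty_or_nonempty
    · simp
    have h1 := hmin A' (mem_erase_of_ne_of_mem hne.ne_empty (mem_powerset.2 hAA))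
    have h2 : (0 : ℚ) < X.card := by exact_mod_cast hX1
    have h3 : (0 : ℚ) < A'.card := by exact_mod_cast hne.card_pos
    rw [div_le_div_iff₀ h2 h3] at h1
    exact_mod_cast h1
  have h1 := pluennecke_petridis_inequality_add (A := X) (B := D) D
    (fun A' hAA => key A' (hAA.trans hXA))
  have h2 := key A subset_rfl
  refine ⟨X, hXA, hX0, ?_⟩
  have e1 : D + X + D = X + D + D := by rw [add_comm D X]
  have e2 : D + X = X + D := add_comm _ _
  rw [e1, e2] at h1
  refine le_of_mul_le_mul_right ?_ hX1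
  calc (X + D + D).card * A.card ^ 2 * X.card = ((X + D + D).card * X.card) * A.card ^ 2 := by ring
    _ ≤ ((X + D).card * (X + D).card) * A.card ^ 2 := Nat.mul_le_mul_right _ h1
    _ = ((X + D).card * A.card) * ((X + D).card * A.card) := by ring
    _ ≤ ((A + D).card * X.card) * ((A + D).card * X.card) := Nat.mul_le_mul h2 h2
    _ = (A + D).card ^ 2 * X.card * X.card := by ring

/-- a large subset of `A` with few twofold sums with `D` -/
theorem exists_large (A D : Finset G) {δ : ℝ} (hδ : 0 < δ) :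
    ∃ A' ⊆ A, ((A \ A').card : ℝ) ≤ δ * A.card ∧
      ((A' + D + D).card : ℝ) * (δ ^ 2 * A.card) ≤ ((A + D).card : ℝ) ^ 2 := by
  classical
  obtain rfl | hA := A.eq_empty_or_nonempty
  · exact ⟨∅, subset_rfl, by simp, by simp⟩
  have hA0 : (0 : ℝ) < A.card := by exact_mod_cast hA.card_pos
  let S := A.powerset.filter fun A' =>
    ((A' + D + D).card : ℝ) * (δ * A.card) ^ 2 ≤ ((A + D).card : ℝ) ^ 2 * A'.card
  have hS : (∅ : Finset G) ∈ S := by
    simp [S]
  obtain ⟨A', hA', hmax⟩ := exists_max_image S (fun C => C.card) ⟨∅, hS⟩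
  simp only [S, mem_filter, mem_powerset] at hA' hmax
  obtain ⟨hsub, hP⟩ := hA'
  refine ⟨A', hsub, ?_, ?_⟩
  · by_contra hcon
    push Not at hcon
    have hne : (A \ A').Nonempty := by
      rw [← card_pos]
      have : (0 : ℝ) < (A \ A').card := lt_of_le_of_lt (by positivity) hcon
      exact_mod_cast this
    obtain ⟨X, hX, hX0, hX1⟩ := exists_petridis (A \ A') D hne
    have h1 : ((X + D + D).card : ℝ) * (δ * A.card) ^ 2 ≤ ((A + D).card : ℝ) ^ 2 * X.card := by
      have h2 : ((X + D + D).card : ℝ) * ((A \ A').card : ℝ) ^ 2 ≤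
          (((A \ A') + D).card : ℝ) ^ 2 * X.card := by exact_mod_cast hX1
      have h3 : (((A \ A') + D).card : ℝ) ≤ (A + D).card := by
        exact_mod_cast card_le_card (add_subset_add_right sdiff_subset)
      have h4 : (δ * A.card) ^ 2 ≤ ((A \ A').card : ℝ) ^ 2 :=
        pow_le_pow_left₀ (by positivity) hcon.le 2
      calc ((X + D + D).card : ℝ) * (δ * A.card) ^ 2
          ≤ ((X + D + D).card : ℝ) * ((A \ A').card : ℝ) ^ 2 :=
            mul_le_mul_of_nonneg_left h4 (Nat.cast_nonneg _)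
        _ ≤ (((A \ A') + D).card : ℝ) ^ 2 * X.card := h2
        _ ≤ _ := mul_le_mul_of_nonneg_right (pow_le_pow_left₀ (Nat.cast_nonneg _) h3 2)
            (Nat.cast_nonneg _)
    have hdis : Disjoint A' X := by
      refine Finset.disjoint_left.2 fun v hv hv' => ?_
      exact (mem_sdiff.1 (hX hv')).2 hv
    have hcard : (A' ∪ X).card = A'.card + X.card := card_union_of_disjoint hdis
    have h5 : (((A' ∪ X) + D + D).card : ℝ) ≤ (A' + D + D).card + (X + D + D).card := by
      rw [union_add, union_add]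
      exact_mod_cast card_union_le _ _
    have h6 := hmax (A' ∪ X) ⟨union_subset hsub (hX.trans sdiff_subset), by
      rw [hcard]
      push_cast
      calc (((A' ∪ X) + D + D).card : ℝ) * (δ * A.card) ^ 2
          ≤ ((A' + D + D).card + (X + D + D).card) * (δ * A.card) ^ 2 :=
            mul_le_mul_of_nonneg_right h5 (by positivity)
        _ = ((A' + D + D).card : ℝ) * (δ * A.card) ^ 2 +
            ((X + D + D).card : ℝ) * (δ * A.card) ^ 2 := by ring
        _ ≤ ((A + D).card : ℝ) ^ 2 * A'.card + ((A + D).card : ℝ) ^ 2 * X.card :=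
            add_le_add hP h1
        _ = _ := by ring⟩
    rw [hcard] at h6
    have := hX0.card_pos
    omega
  · have h1 : (A'.card : ℝ) ≤ A.card := by exact_mod_cast card_le_card hsub
    have h2 : (((A' + D + D).card : ℝ) * (δ ^ 2 * A.card)) * A.card ≤
        (((A + D).card : ℝ) ^ 2) * A.card := by
      calc (((A' + D + D).card : ℝ) * (δ ^ 2 * A.card)) * A.card
          = ((A' + D + D).card : ℝ) * (δ * A.card) ^ 2 := by ring
        _ ≤ ((A + D).card : ℝ) ^ 2 * A'.card := hP
        _ ≤ _ := mul_le_mul_of_nonneg_left h1 (by positivity)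
    exact le_of_mul_le_mul_right h2 hA0

/-- the same with two different summands -/
theorem exists_large_two (A D E : Finset G) {δ τ : ℝ} (hδ : 0 < δ)
    (h1 : ((D + A).card : ℝ) ≤ τ) (h2 : ((E + A).card : ℝ) ≤ τ) :
    ∃ A' ⊆ A, ((A \ A').card : ℝ) ≤ δ * A.card ∧
      ((A' + (D + E)).card : ℝ) * (δ ^ 2 * A.card) ≤ 4 * τ ^ 2 := by
  obtain ⟨A', hA', h3, h4⟩ := exists_large A (D ∪ E) hδ
  refine ⟨A', hA', h3, ?_⟩
  have h5 : ((A' + (D + E)).card : ℝ) ≤ (A' + (D ∪ E) + (D ∪ E)).card := by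
    rw [add_assoc]
    exact_mod_cast card_le_card
      (add_subset_add_left (add_subset_add subset_union_left subset_union_right))
  have h6 : ((A + (D ∪ E)).card : ℝ) ≤ 2 * τ := by
    have : (A + (D ∪ E)).card ≤ (D + A).card + (E + A).card := by
      rw [add_union, add_comm A D, add_comm A E]
      exact card_union_le _ _
    have h7 : ((A + (D ∪ E)).card : ℝ) ≤ (D + A).card + (E + A).card := by exact_mod_cast this
    linarith
  calc ((A' + (D + E)).card : ℝ) * (δ ^ 2 * A.card)
      ≤ ((A' + (D ∪ E) + (D ∪ E)).card : ℝ) * (δ ^ 2 * A.card) :=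
        mul_le_mul_of_nonneg_right h5 (by positivity)
    _ ≤ ((A + (D ∪ E)).card : ℝ) ^ 2 := h4
    _ ≤ (2 * τ) ^ 2 := pow_le_pow_left₀ (Nat.cast_nonneg _) h6 2
    _ = _ := by ring

/-- three summands, each with few sums with `U` -/
theorem three_sum (U Y₁ Y₂ Y₃ : Finset G) (hU : U.Nonempty) {κ : ℝ}
    (h1 : ((Y₁ + U).card : ℝ) ≤ κ) (h2 : ((Y₂ + U).card : ℝ) ≤ κ) (h3 : ((Y₃ + U).card : ℝ) ≤ κ) :
    ((Y₁ + (Y₂ + Y₃)).card : ℝ) * (U.card : ℝ) ^ 2 ≤ 27 * κ ^ 3 := by
  set D := Y₁ ∪ Y₂ ∪ Y₃ with hD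
  have hU0 : (0 : ℝ) < U.card := by exact_mod_cast hU.card_pos
  have h4 : ((U + D).card : ℝ) ≤ 3 * κ := by
    have : (U + D).card ≤ (Y₁ + U).card + (Y₂ + U).card + (Y₃ + U).card := by
      rw [hD, add_union, add_union, add_comm U Y₁, add_comm U Y₂, add_comm U Y₃]
      exact (card_union_le _ _).trans (Nat.add_le_add_right (card_union_le _ _) _)
    have h7 : ((U + D).card : ℝ) ≤ (Y₁ + U).card + (Y₂ + U).card + (Y₃ + U).card := by
      exact_mod_cast this
    linarith
  have h5 := pluennecke_ruzsa_inequality_nsmul_add hU D 3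
  have h6 : ((Y₁ + (Y₂ + Y₃)).card : ℝ) ≤ ((3 • D).card : ℝ) := by
    have e : (3 : ℕ) • D = D + (D + D) := by
      rw [show (3 : ℕ) = 2 + 1 from rfl, add_smul, one_smul, two_smul, add_assoc]
    rw [e]
    have s1 : Y₁ ⊆ D := subset_union_left.trans subset_union_left
    have s2 : Y₂ ⊆ D := subset_union_right.trans subset_union_left
    have s3 : Y₃ ⊆ D := subset_union_right
    exact_mod_cast card_le_card (add_subset_add s1 (add_subset_add s2 s3))
  have h7 : ((3 • D).card : ℝ) ≤ ((U + D).card / U.card : ℝ) ^ 3 * U.card := by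
    have h := (NNRat.cast_le (K := ℝ)).2 h5
    push_cast at h
    exact h
  have h8 : ((U + D).card / U.card : ℝ) ^ 3 * U.card * (U.card : ℝ) ^ 2 =
      ((U + D).card : ℝ) ^ 3 := by
    field_simp
  calc ((Y₁ + (Y₂ + Y₃)).card : ℝ) * (U.card : ℝ) ^ 2
      ≤ (((U + D).card / U.card : ℝ) ^ 3 * U.card) * (U.card : ℝ) ^ 2 :=
        mul_le_mul_of_nonneg_right (h6.trans h7) (by positivity)
    _ = ((U + D).card : ℝ) ^ 3 := h8
    _ ≤ (3 * κ) ^ 3 := pow_le_pow_left₀ (Nat.cast_nonneg _) h4 3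
    _ = _ := by ring

end subset

end Pool.Agent.H58.Sds2
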