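import Mathlib
import Pool.Agent.H58.Sds2.Core

set_option autoImplicit false
open Finset
open scoped Pointwise

/-! # Two-set sums and differences: five blocks -/

namespace Pool.Agent.H58.Sds2

variable {ι G : Type*} [AddCommGroup G] [DecidableEq G]

lemma card_le_sub (b d : ι → G) (J : Finset ι) (hinj : Set.InjOn (fun i => b i - d i) (J : Set ι))
    (Y X : Finset G) (hY : ∀ i ∈ J, b i ∈ Y) (hX : ∀ i ∈ J, d i ∈ X) :
    (J.card : ℝ) ≤ ((Y - X).card : ℝ) := by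
  have : J.card ≤ (Y - X).card := by
    refine card_le_card_of_injOn (fun i => b i - d i) ?_ hinj
    intro i hi
    exact sub_mem_sub (hY i hi) (hX i hi)
  exact_mod_cast this

lemma tri (A B C : Finset G) {p q : ℝ} (hp : ((A + B).card : ℝ) ≤ p) (hq : ((C + B).card : ℝ) ≤ q) :
    ((A - C).card : ℝ) * B.card ≤ p * q := by
  have h := ruzsa_triangle_inequality_sub_add_add A B C
  have h1 : ((A - C).card : ℝ) * B.card ≤ (A + B).card * (C + B).card := by exact_mod_cast h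
  exact h1.trans (mul_le_mul hp hq (Nat.cast_nonneg _) ((Nat.cast_nonneg _).trans hp))

theorem core_one (b d : ι → G) (I : ℕ → Finset ι)
    (hinj : ∀ t, Set.InjOn (fun i => b i - d i) (I t : Set ι))
    {τ m x y δ : ℝ} (hδ : 0 < δ) (hδ1 : δ ≤ 1 / 2) (hm : 0 < m) (hx : 0 < x) (hy : 0 < y)
    (hτ : ∀ s t, s < t → t ≤ 4 → (((I s).image d + (I t).image b).card : ℝ) ≤ τ)
    (hmI : ∀ t ≤ 4, m ≤ (I t).card)
    (hxI : ∀ t ≤ 4, x ≤ ((I t).image d).card)
    (hyI : ∀ t ≤ 4, y ≤ ((I t).image b).card)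
    (hY : ∀ t ≤ 4, ∀ Y' ⊆ (I t).image b,
      ((((I t).image b) \ Y').card : ℝ) ≤ δ * ((I t).image b).card →
      (((I t).filter fun i => b i ∉ Y').card : ℝ) ≤ m / 4)
    (hX : ∀ t ≤ 4, ∀ X' ⊆ (I t).image d,
      ((((I t).image d) \ X').card : ℝ) ≤ δ * ((I t).image d).card →
      (((I t).filter fun i => d i ∉ X').card : ℝ) ≤ m / 4) :
    m ^ 4 * y ^ 4 * x ^ 3 * δ ^ 8 ≤ 36864 * τ ^ 11 := by
  classical
  have hτ0 : 0 ≤ τ := (Nat.cast_nonneg _).trans (hτ 0 1 (by norm_num) (by norm_num))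
  have hτ' : ∀ s t, s < t → t ≤ 4 → (((I t).image b + (I s).image d).card : ℝ) ≤ τ := by
    intro s t h1 h2
    rw [add_comm]
    exact hτ s t h1 h2
  obtain ⟨Y2, hY2, hY2a, hY2b⟩ := exists_large_two ((I 2).image b) ((I 0).image d)
    ((I 1).image d) hδ (hτ 0 2 (by norm_num) (by norm_num)) (hτ 1 2 (by norm_num) (by norm_num))
  obtain ⟨Y3, hY3, hY3a, hY3b⟩ := exists_large_two ((I 3).image b) ((I 0).image d)
    ((I 1).image d) hδ (hτ 0 3 (by norm_num) (by norm_num)) (hτ 1 3 (by norm_num) (by norm_num))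
  obtain ⟨Y4, hY4, hY4a, hY4b⟩ := exists_large_two ((I 4).image b) ((I 0).image d)
    ((I 1).image d) hδ (hτ 0 4 (by norm_num) (by norm_num)) (hτ 1 4 (by norm_num) (by norm_num))
  obtain ⟨X2, hX2, hX2a, hX2b⟩ := exists_large_two ((I 2).image d) ((I 3).image b)
    ((I 4).image b) hδ (hτ' 2 3 (by norm_num) (by norm_num)) (hτ' 2 4 (by norm_num) (by norm_num))
  set U := (I 0).image d + (I 1).image d with hU
  set V := Y3 + Y4 with hV
  set w : ℝ := (U.card : ℝ) with hw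
  set v : ℝ := (V.card : ℝ) with hv
  have hw0 : 0 ≤ w := Nat.cast_nonneg _
  have hv0 : 0 ≤ v := Nat.cast_nonneg _
  -- (1)
  have a1 : m * x ≤ τ * w := by
    have h1 := tri ((I 1).image b) ((I 0).image d) ((I 1).image d) (p := τ) (q := w)
      (hτ' 0 1 (by norm_num) (by norm_num)) (by rw [hw, hU, add_comm])
    have h2 := card_le_sub b d (I 1) (hinj 1) ((I 1).image b) ((I 1).image d)
      (fun i hi => mem_image_of_mem _ hi) (fun i hi => mem_image_of_mem _ hi)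
    refine le_trans ?_ h1
    exact mul_le_mul ((hmI 1 (by norm_num)).trans h2) (hxI 0 (by norm_num)) hx.le
      (Nat.cast_nonneg _)
  have hUne : U.Nonempty := by
    rw [nonempty_iff_ne_empty]
    intro h0
    have h1 : w = 0 := by rw [hw, h0, card_empty, Nat.cast_zero]
    have h2 : 0 < τ * w := lt_of_lt_of_le (mul_pos hm hx) a1
    rw [h1, mul_zero] at h2
    exact lt_irrefl _ h2
  -- kappa
  obtain ⟨κ, hκ⟩ : ∃ κ : ℝ, κ * (δ ^ 2 * y) = 4 * τ ^ 2 :=
    ⟨4 * τ ^ 2 / (δ ^ 2 * y), div_mul_cancel₀ _ (by positivity)⟩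
  have hδy : 0 < δ ^ 2 * y := by positivity
  have kap : ∀ (t : ℕ) (Y' : Finset G), t ≤ 4 →
      ((Y' + U).card : ℝ) * (δ ^ 2 * ((I t).image b).card) ≤ 4 * τ ^ 2 →
      ((Y' + U).card : ℝ) ≤ κ := by
    intro t Y' ht h
    rw [← hκ] at h
    refine le_of_mul_le_mul_right (le_trans ?_ h) hδy
    exact mul_le_mul_of_nonneg_left
      (mul_le_mul_of_nonneg_left (hyI t ht) (by positivity)) (Nat.cast_nonneg _)
  have k2 := kap 2 Y2 (by norm_num) hY2b
  have k3 := kap 3 Y3 (by norm_num) hY3b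
  have k4 := kap 4 Y4 (by norm_num) hY4b
  have a4 : ((Y2 + V).card : ℝ) * w ^ 2 ≤ 27 * κ ^ 3 := three_sum U Y2 Y3 Y4 hUne k2 k3 k4
  -- (6)
  have a2 : 3 / 8 * (m * y) ≤ τ * v := by
    have h1 := tri Y3 Y4 ((I 3).image d) (p := v) (q := τ) le_rfl
      (le_trans (by exact_mod_cast card_le_card (add_subset_add_left hY4))
        (hτ 3 4 (by norm_num) (by norm_num)))
    have h2 := card_le_sub b d ((I 3).filter fun i => b i ∈ Y3)
      ((hinj 3).mono (by intro i hi; exact (mem_filter.1 hi).1)) Y3 ((I 3).image d)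
      (fun i hi => (mem_filter.1 hi).2) (fun i hi => mem_image_of_mem _ (mem_filter.1 hi).1)
    have h3 := hY 3 (by norm_num) Y3 hY3 hY3a
    have h4 : (((I 3).filter fun i => b i ∈ Y3).card : ℝ) +
        (((I 3).filter fun i => b i ∉ Y3).card : ℝ) = (I 3).card := by
      exact_mod_cast card_filter_add_card_filter_not (s := I 3) (fun i => b i ∈ Y3)
    have h5 := hmI 3 (by norm_num)
    have h6 : 3 / 4 * m ≤ ((Y3 - (I 3).image d).card : ℝ) := by linarith
    have h7 : (((I 4).image b \ Y4).card : ℝ) + (Y4.card : ℝ) = ((I 4).image b).card := by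
      exact_mod_cast card_sdiff_add_card_eq_card hY4
    have h8 := hyI 4 (by norm_num)
    have h9 : y / 2 ≤ (Y4.card : ℝ) := by nlinarith
    have h10 : (3 / 4 * m) * (y / 2) ≤ v * τ :=
      le_trans (mul_le_mul h6 h9 (by positivity) (Nat.cast_nonneg _)) h1
    linarith
  -- (4)
  have a6 : ((X2 + V).card : ℝ) * (δ ^ 2 * x) ≤ 4 * τ ^ 2 := by
    have h1 : ((X2 + V).card : ℝ) ≤ ((X2 + ((I 3).image b + (I 4).image b)).card : ℝ) := by
      exact_mod_cast card_le_card (add_subset_add_left (add_subset_add hY3 hY4))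
    refine le_trans ?_ hX2b
    exact mul_le_mul h1 (mul_le_mul_of_nonneg_left (hxI 2 (by norm_num)) (by positivity))
      (by positivity) (Nat.cast_nonneg _)
  -- (7)
  have a3 : m * v ≤ 2 * (((Y2 + V).card : ℝ) * ((X2 + V).card : ℝ)) := by
    have h1 := tri Y2 V X2 (p := ((Y2 + V).card : ℝ)) (q := ((X2 + V).card : ℝ)) le_rfl le_rfl
    have h2 := card_le_sub b d ((I 2).filter fun i => b i ∈ Y2 ∧ d i ∈ X2)
      ((hinj 2).mono (by intro i hi; exact (mem_filter.1 hi).1)) Y2 X2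
      (fun i hi => (mem_filter.1 hi).2.1) (fun i hi => (mem_filter.1 hi).2.2)
    have h3 := hY 2 (by norm_num) Y2 hY2 hY2a
    have h3' := hX 2 (by norm_num) X2 hX2 hX2a
    have h4 : (I 2).card ≤ ((I 2).filter fun i => b i ∈ Y2 ∧ d i ∈ X2).card +
        ((I 2).filter fun i => b i ∉ Y2).card + ((I 2).filter fun i => d i ∉ X2).card := by
      refine le_trans (card_le_card ?_) ((card_union_le _ _).trans
        (Nat.add_le_add_right (card_union_le _ _) _))
      intro i hi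
      simp only [mem_union, mem_filter]
      tauto
    have h4' : ((I 2).card : ℝ) ≤ ((I 2).filter fun i => b i ∈ Y2 ∧ d i ∈ X2).card +
        ((I 2).filter fun i => b i ∉ Y2).card + ((I 2).filter fun i => d i ∉ X2).card := by
      exact_mod_cast h4
    have h5 := hmI 2 (by norm_num)
    have h6 : m / 2 ≤ ((Y2 - X2).card : ℝ) := by linarith
    have h7 : m / 2 * v ≤ ((Y2 + V).card : ℝ) * ((X2 + V).card : ℝ) :=
      le_trans (mul_le_mul_of_nonneg_right h6 hv0) h1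
    linarith
  -- assembling
  set p : ℝ := ((Y2 + V).card : ℝ) with hp
  set q : ℝ := ((X2 + V).card : ℝ) with hq
  have hp0 : 0 ≤ p := Nat.cast_nonneg _
  have hq0 : 0 ≤ q := Nat.cast_nonneg _
  have hκ0 : 0 ≤ κ := (Nat.cast_nonneg _).trans k2
  calc m ^ 4 * y ^ 4 * x ^ 3 * δ ^ 8
      = (m * x) ^ 2 * (m * y) * (m * (x * δ ^ 2) * (y * δ ^ 2) ^ 3) := by ring
    _ ≤ (τ * w) ^ 2 * (8 / 3 * (τ * v)) * (m * (x * δ ^ 2) * (y * δ ^ 2) ^ 3) := by
        apply mul_le_mul_of_nonneg_right _ (by positivity)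
        apply mul_le_mul (pow_le_pow_left₀ (by positivity) a1 2) _ (by positivity) (by positivity)
        linarith
    _ = 8 / 3 * τ ^ 3 * w ^ 2 * ((x * δ ^ 2) * (y * δ ^ 2) ^ 3) * (m * v) := by ring
    _ ≤ 8 / 3 * τ ^ 3 * w ^ 2 * ((x * δ ^ 2) * (y * δ ^ 2) ^ 3) * (2 * (p * q)) :=
        mul_le_mul_of_nonneg_left a3 (by positivity)
    _ = 16 / 3 * τ ^ 3 * (y * δ ^ 2) ^ 3 * ((p * w ^ 2) * (q * (δ ^ 2 * x))) := by ring
    _ ≤ 16 / 3 * τ ^ 3 * (y * δ ^ 2) ^ 3 * ((27 * κ ^ 3) * (4 * τ ^ 2)) := by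
        apply mul_le_mul_of_nonneg_left _ (by positivity)
        exact mul_le_mul a4 a6 (by positivity) (by positivity)
    _ = 576 * τ ^ 5 * (κ * (δ ^ 2 * y)) ^ 3 := by ring
    _ = 36864 * τ ^ 11 := by rw [hκ]; ring

/-- both orders together -/
theorem core_two (b d : ι → G) (I : ℕ → Finset ι)
    (hinj : ∀ t, Set.InjOn (fun i => b i - d i) (I t : Set ι))
    {τ m x y δ : ℝ} (hδ : 0 < δ) (hδ1 : δ ≤ 1 / 2) (hm : 0 < m) (hx : 0 < x) (hy : 0 < y)
    (hτ : ∀ s t, s < t → t ≤ 4 → (((I s).image d + (I t).image b).card : ℝ) ≤ τ)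
    (hmI : ∀ t ≤ 4, m ≤ (I t).card)
    (hxI : ∀ t ≤ 4, x ≤ ((I t).image d).card)
    (hyI : ∀ t ≤ 4, y ≤ ((I t).image b).card)
    (hY : ∀ t ≤ 4, ∀ Y' ⊆ (I t).image b,
      ((((I t).image b) \ Y').card : ℝ) ≤ δ * ((I t).image b).card →
      (((I t).filter fun i => b i ∉ Y').card : ℝ) ≤ m / 4)
    (hX : ∀ t ≤ 4, ∀ X' ⊆ (I t).image d,
      ((((I t).image d) \ X').card : ℝ) ≤ δ * ((I t).image d).card →
      (((I t).filter fun i => d i ∉ X').card : ℝ) ≤ m / 4) :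
    m ^ 8 * (x * y) ^ 7 * δ ^ 16 ≤ 36864 ^ 2 * τ ^ 22 := by
  have h1 := core_one b d I hinj hδ hδ1 hm hx hy hτ hmI hxI hyI hY hX
  have hinj' : ∀ t, Set.InjOn (fun i => d i - b i) (I t : Set ι) := by
    intro t i hi j hj h
    refine hinj t hi hj ?_
    simp only at h ⊢
    rw [← neg_sub (d i), ← neg_sub (d j), h]
  have h2 := core_one d b (fun t => I (4 - t)) (fun t => hinj' (4 - t)) hδ hδ1 hm hy hx
    (fun s t hst ht => by
      rw [add_comm]
      exact hτ (4 - t) (4 - s) (by omega) (by omega))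
    (fun t _ => hmI (4 - t) (by omega)) (fun t _ => hyI (4 - t) (by omega))
    (fun t _ => hxI (4 - t) (by omega)) (fun t _ => hX (4 - t) (by omega))
    (fun t _ => hY (4 - t) (by omega))
  have hτ0 : 0 ≤ τ := (Nat.cast_nonneg _).trans (hτ 0 1 (by norm_num) (by norm_num))
  calc m ^ 8 * (x * y) ^ 7 * δ ^ 16
      = (m ^ 4 * y ^ 4 * x ^ 3 * δ ^ 8) * (m ^ 4 * x ^ 4 * y ^ 3 * δ ^ 8) := by ring
    _ ≤ (36864 * τ ^ 11) * (36864 * τ ^ 11) := mul_le_mul h1 h2 (by positivity) (by positivity)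
    _ = _ := by ring

end Pool.Agent.H58.Sds2
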