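import Mathlib
import Pool.Agent.H58.Sds2.Core2
import Pool.Agent.H66.Sds.Low2

set_option autoImplicit false
open Finset
open scoped Pointwise

/-! # Regular classes in the blocks -/

namespace Pool.Agent.H58.Sds2

open Pool.Agent.H66.Sds

lemma exists_level {u : ℝ} (hu1 : 1 ≤ u) (T : ℕ) {z : ℝ} (h1 : 1 ≤ z) (h2 : z ≤ u ^ T) :
    ∃ j ∈ range (T + 1), u ^ j ≤ z ∧ z ≤ u ^ (j + 1) := by
  induction T with
  | zero =>
    refine ⟨0, by simp, by simpa using h1, ?_⟩
    rw [pow_zero] at h2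
    rw [zero_add, pow_one]
    exact h2.trans hu1
  | succ T ih =>
    rcases le_total z (u ^ T) with h | h
    · obtain ⟨j, hj, hj1⟩ := ih h
      exact ⟨j, mem_range.2 ((mem_range.1 hj).trans (Nat.lt_succ_self _)), hj1⟩
    · exact ⟨T, by simp, h, h2⟩

section fiber

variable {J I : Finset ℕ} {f : ℕ → ℤ} {lo hi : ℝ}

lemma image_mul_le
    (h : ∀ i ∈ I, lo ≤ ((J.filter fun i' => f i' = f i).card : ℝ)) :
    ((I.image f).card : ℝ) * lo ≤ J.card := by
  have h1 : (J.filter fun i => f i ∈ I.image f).card =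
      ∑ v ∈ I.image f, ((J.filter fun i => f i ∈ I.image f).filter fun i => f i = v).card :=
    card_eq_sum_card_fiberwise (fun i hi => (mem_filter.1 hi).2)
  have h2 : ∀ v ∈ I.image f, lo ≤
      (((J.filter fun i => f i ∈ I.image f).filter fun i => f i = v).card : ℝ) := by
    intro v hv
    obtain ⟨i, hi, rfl⟩ := mem_image.1 hv
    refine (h i hi).trans ?_
    have : (J.filter fun i' => f i' = f i) ⊆
        ((J.filter fun i => f i ∈ I.image f).filter fun i' => f i' = f i) := by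
      intro i' hi'
      rw [mem_filter] at hi'
      rw [mem_filter, mem_filter]
      exact ⟨⟨hi'.1, by rw [hi'.2]; exact hv⟩, hi'.2⟩
    exact_mod_cast card_le_card this
  calc ((I.image f).card : ℝ) * lo = ∑ _v ∈ I.image f, lo := by
        rw [sum_const, nsmul_eq_mul]
    _ ≤ ∑ v ∈ I.image f,
        (((J.filter fun i => f i ∈ I.image f).filter fun i => f i = v).card : ℝ) := sum_le_sum h2
    _ = ((J.filter fun i => f i ∈ I.image f).card : ℝ) := by rw [h1]; push_cast; rfl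
    _ ≤ J.card := by exact_mod_cast card_le_card (filter_subset _ _)

lemma filter_le_mul (hIJ : I ⊆ J) (hhi : 0 ≤ hi)
    (h : ∀ i ∈ I, ((J.filter fun i' => f i' = f i).card : ℝ) ≤ hi) (Z : Finset ℤ) :
    ((I.filter fun i => f i ∈ Z).card : ℝ) ≤ Z.card * hi := by
  have h1 : (I.filter fun i => f i ∈ Z).card =
      ∑ v ∈ Z, ((I.filter fun i => f i ∈ Z).filter fun i => f i = v).card :=
    card_eq_sum_card_fiberwise (fun i hi => (mem_filter.1 hi).2)
  have h2 : ∀ v ∈ Z, (((I.filter fun i => f i ∈ Z).filter fun i => f i = v).card : ℝ) ≤ hi := by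
    intro v _
    rcases ((I.filter fun i => f i ∈ Z).filter fun i => f i = v).eq_empty_or_nonempty with h3 | h3
    · rw [h3]; simpa using hhi
    · obtain ⟨i, hi⟩ := h3
      rw [mem_filter, mem_filter] at hi
      refine le_trans ?_ (h i hi.1.1)
      have : ((I.filter fun i => f i ∈ Z).filter fun i' => f i' = v) ⊆
          (J.filter fun i' => f i' = f i) := by
        intro i' hi'
        rw [mem_filter, mem_filter] at hi'
        rw [mem_filter]
        exact ⟨hIJ hi'.1.1, by rw [hi'.2, hi.2]⟩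
      exact_mod_cast card_le_card this
  calc ((I.filter fun i => f i ∈ Z).card : ℝ)
      = ∑ v ∈ Z, (((I.filter fun i => f i ∈ Z).filter fun i => f i = v).card : ℝ) := by
        rw [h1]; push_cast; rfl
    _ ≤ ∑ _v ∈ Z, hi := sum_le_sum h2
    _ = Z.card * hi := by rw [sum_const, nsmul_eq_mul]

end fiber

/-- the number of indices of the block with the same value of `f` -/
noncomputable def wt (B k : ℕ) (f : ℕ → ℤ) (i : ℕ) : ℝ :=
  (((Bk B k).filter fun i' => f i' = f i).card : ℝ)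

lemma card_Bk (B k : ℕ) : (Bk B k).card = B := by
  unfold Bk; rw [Nat.card_Ico]; omega

lemma one_le_wt {B k : ℕ} {f : ℕ → ℤ} {i : ℕ} (hi : i ∈ Bk B k) : 1 ≤ wt B k f i := by
  unfold wt
  have : 0 < ((Bk B k).filter fun i' => f i' = f i).card :=
    card_pos.2 ⟨i, mem_filter.2 ⟨hi, rfl⟩⟩
  exact_mod_cast this

lemma wt_le {B k : ℕ} {f : ℕ → ℤ} {i : ℕ} : wt B k f i ≤ B := by
  unfold wt
  have h : ((Bk B k).filter fun i' => f i' = f i).card ≤ B := by
    conv_rhs => rw [← card_Bk B k]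
    exact card_le_card (filter_subset _ _)
  exact_mod_cast h

/-- a popular class of the block -/
theorem exists_class {B T : ℕ} (k : ℕ) (f g : ℕ → ℤ) {u : ℝ} (hu1 : 1 ≤ u) (huT : u ^ T = B) :
    ∃ c ∈ (range (T + 1) ×ˢ range (T + 1) : Finset (ℕ × ℕ)), ∃ I ⊆ Bk B k,
      (B : ℝ) / ((T : ℝ) + 1) ^ 2 ≤ I.card ∧
      ∀ i ∈ I, (u ^ c.1 ≤ wt B k f i ∧ wt B k f i ≤ u ^ (c.1 + 1)) ∧
        (u ^ c.2 ≤ wt B k g i ∧ wt B k g i ≤ u ^ (c.2 + 1)) := by
  have h : ∀ i ∈ Bk B k, ∃ c ∈ (range (T + 1) ×ˢ range (T + 1) : Finset (ℕ × ℕ)),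
      (u ^ c.1 ≤ wt B k f i ∧ wt B k f i ≤ u ^ (c.1 + 1)) ∧
        (u ^ c.2 ≤ wt B k g i ∧ wt B k g i ≤ u ^ (c.2 + 1)) := by
    intro i hi
    obtain ⟨j, hj, h1⟩ := exists_level hu1 T (one_le_wt (f := f) hi) (by rw [huT]; exact wt_le)
    obtain ⟨l, hl, h2⟩ := exists_level hu1 T (one_le_wt (f := g) hi) (by rw [huT]; exact wt_le)
    exact ⟨(j, l), mem_product.2 ⟨hj, hl⟩, h1, h2⟩
  choose! cl hcl1 hcl2 using h
  have hcard : ((range (T + 1) ×ˢ range (T + 1) : Finset (ℕ × ℕ)).card) •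
      ((B : ℝ) / ((T : ℝ) + 1) ^ 2) ≤ ((Bk B k).card : ℝ) := by
    rw [card_product, card_range, nsmul_eq_mul, card_Bk]
    push_cast
    apply le_of_eq
    field_simp
  obtain ⟨c, hc, h1⟩ := exists_le_card_fiber_of_nsmul_le_card_of_maps_to hcl1
    ⟨(0, 0), by simp⟩ hcard
  refine ⟨c, hc, (Bk B k).filter fun i => cl i = c, filter_subset _ _, h1, ?_⟩
  intro i hi
  rw [mem_filter] at hi
  have := hcl2 i hi.1
  rwa [hi.2] at this

/-- the facts about a popular class -/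
theorem class_facts {B T k : ℕ} (hB : 1 ≤ B) (f : ℕ → ℤ) {u : ℝ} (hu1 : 1 ≤ u) {j : ℕ}
    {I : Finset ℕ} (hI : I ⊆ Bk B k) (hm : (B : ℝ) / ((T : ℝ) + 1) ^ 2 ≤ I.card)
    (h : ∀ i ∈ I, u ^ j ≤ wt B k f i ∧ wt B k f i ≤ u ^ (j + 1)) :
    ((I.image f).card : ℝ) * u ^ j ≤ B ∧
    (B : ℝ) / ((T : ℝ) + 1) ^ 2 / u ^ (j + 1) ≤ (I.image f).card ∧
    ∀ Y' ⊆ I.image f, (((I.image f) \ Y').card : ℝ) ≤
        1 / (4 * ((T : ℝ) + 1) ^ 2 * u) * (I.image f).card →
      ((I.filter fun i => f i ∉ Y').card : ℝ) ≤ (B : ℝ) / ((T : ℝ) + 1) ^ 2 / 4 := by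
  have hu0 : 0 < u := lt_of_lt_of_le one_pos hu1
  have h1 : ((I.image f).card : ℝ) * u ^ j ≤ B := by
    have := image_mul_le (J := Bk B k) (I := I) (f := f) (lo := u ^ j)
      (fun i hi => (h i hi).1)
    rwa [card_Bk] at this
  have h2 : ∀ Z : Finset ℤ, ((I.filter fun i => f i ∈ Z).card : ℝ) ≤ Z.card * u ^ (j + 1) :=
    filter_le_mul (J := Bk B k) hI (by positivity) (fun i hi => (h i hi).2)
  refine ⟨h1, ?_, ?_⟩
  · rw [div_le_iff₀ (by positivity)]
    refine hm.trans ?_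
    have h3 := h2 (I.image f)
    have h4 : (I.filter fun i => f i ∈ I.image f) = I :=
      filter_true_of_mem fun i hi => mem_image_of_mem _ hi
    rwa [h4] at h3
  · intro Y' _ hY'
    have h3 := h2 ((I.image f) \ Y')
    have h4 : (I.filter fun i => f i ∉ Y') = (I.filter fun i => f i ∈ (I.image f) \ Y') := by
      refine filter_congr fun i hi => ?_
      rw [mem_sdiff]
      exact ⟨fun h => ⟨mem_image_of_mem _ hi, h⟩, fun h => h.2⟩
    rw [h4]
    refine h3.trans ?_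
    have hT : (0 : ℝ) < ((T : ℝ) + 1) ^ 2 := by positivity
    calc (((I.image f) \ Y').card : ℝ) * u ^ (j + 1)
        ≤ (1 / (4 * ((T : ℝ) + 1) ^ 2 * u) * (I.image f).card) * u ^ (j + 1) :=
          mul_le_mul_of_nonneg_right hY' (by positivity)
      _ = (((I.image f).card : ℝ) * u ^ j) / (4 * ((T : ℝ) + 1) ^ 2) := by
          field_simp
          ring
      _ ≤ (B : ℝ) / (4 * ((T : ℝ) + 1) ^ 2) := div_le_div_of_nonneg_right h1 (by positivity)
      _ = _ := by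
          rw [div_div, mul_comm]

end Pool.Agent.H58.Sds2
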