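import Mathlib
import Pool.Agent.H58.Sds2.Blk

set_option autoImplicit false
open Finset
open scoped Pointwise

/-! # Five blocks with small cross sums -/

namespace Pool.Agent.H58.Sds2

open Pool.Agent.H66.Sds

variable {n B N : ℕ} {a : ℕ → ℤ}

/-- the constant -/
noncomputable def K1 (T : ℕ) : ℝ := 36864 ^ 2 * 4 ^ 16 * (((T : ℝ) + 1) ^ 2) ^ 45

lemma K1_pos (T : ℕ) : 0 < K1 T := by unfold K1; positivity

/-- the final inequality between the parameters -/
lemma params {B C u z w τ : ℝ} (hB : 0 < B) (hC : 0 < C) (hu : 0 < u) (hz : 0 < z) (hw : 0 < w)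
    (hτ : 0 ≤ τ) (hzw : z * w ≤ C * B)
    (h : (B / C) ^ 8 * ((B / C / (z * u)) * (B / C / (w * u))) ^ 7 * (1 / (4 * C * u)) ^ 16 ≤
      36864 ^ 2 * τ ^ 22) :
    B ^ 15 ≤ 36864 ^ 2 * 4 ^ 16 * C ^ 45 * u ^ 30 * τ ^ 22 := by
  have h1 : B / (C ^ 3 * u ^ 2) ≤ (B / C / (z * u)) * (B / C / (w * u)) := by
    have e : (B / C / (z * u)) * (B / C / (w * u)) = B ^ 2 / (C ^ 2 * u ^ 2 * (z * w)) := by
      field_simp
    rw [e, div_le_div_iff₀ (by positivity) (by positivity)]
    calc B * (C ^ 2 * u ^ 2 * (z * w)) ≤ B * (C ^ 2 * u ^ 2 * (C * B)) := by gcongr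
      _ = _ := by ring
  have h2 : (B / C) ^ 8 * (B / (C ^ 3 * u ^ 2)) ^ 7 * (1 / (4 * C * u)) ^ 16 ≤
      36864 ^ 2 * τ ^ 22 := by
    refine le_trans ?_ h
    gcongr
  have h3 : (B / C) ^ 8 * (B / (C ^ 3 * u ^ 2)) ^ 7 * (1 / (4 * C * u)) ^ 16 =
      B ^ 15 / (4 ^ 16 * C ^ 45 * u ^ 30) := by
    field_simp
  rw [h3, div_le_iff₀ (by positivity)] at h2
  calc B ^ 15 ≤ 36864 ^ 2 * τ ^ 22 * (4 ^ 16 * C ^ 45 * u ^ 30) := h2
    _ = _ := by ring

/-- **five blocks** -/
theorem five (hn : N * B ≤ n) (ha : ∀ i, i < n → 0 ≤ a i ∧ a i < B) (hB : 1 ≤ B) {T D : ℕ}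
    {u τ : ℝ} (hu1 : 1 ≤ u) (huT : u ^ T = B) (hr : 4 * (T + 1) ^ 2 * D < N) (hD : 1 ≤ D)
    (hτ : ∀ k, 1 ≤ k → k ≤ 4 * (T + 1) ^ 2 → sW n B a (k * D) ≤ τ) :
    (B : ℝ) ^ 15 ≤ K1 T * u ^ 30 * τ ^ 22 := by
  classical
  have hu0 : 0 < u := lt_of_lt_of_le one_pos hu1
  have hBR : (0 : ℝ) < B := by exact_mod_cast hB
  set r := 4 * (T + 1) ^ 2 with hrdef
  set b : ℕ → ℤ := fun i => a i + i with hb
  set d : ℕ → ℤ := fun i => a i - i with hd
  have hcl := fun t : ℕ => exists_class (B := B) (T := T) (t * D) b d hu1 huT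
  choose cl hcl1 I hI hm hlev using hcl
  -- the pigeonhole
  obtain ⟨c, hc, h5⟩ := exists_lt_card_fiber_of_mul_lt_card_of_maps_to
    (s := range (r + 1)) (t := (range (T + 1) ×ˢ range (T + 1) : Finset (ℕ × ℕ)))
    (f := cl) (n := 4) (fun t _ => hcl1 t) (by
      rw [card_product, card_range, card_range, hrdef]
      ring_nf
      omega)
  obtain ⟨F, hF, hF5⟩ := exists_subset_card_eq (show 5 ≤ _ from h5)
  set e := F.orderEmbOfFin hF5 with he
  have heF : ∀ s, e s ∈ F := fun s => F.orderEmbOfFin_mem hF5 s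
  have hecl : ∀ s, cl (e s) = c := fun s => (mem_filter.1 (hF (heF s))).2
  have her : ∀ s, e s ≤ r := fun s => by
    have := mem_range.1 (mem_filter.1 (hF (heF s))).1
    omega
  -- the indices
  let p : ℕ → ℕ := fun s => e ⟨min s 4, by omega⟩
  have hp : ∀ s t, s < t → t ≤ 4 → p s < p t := by
    intro s t hst ht
    apply e.strictMono
    rw [Fin.mk_lt_mk]
    omega
  have hpr : ∀ s, p s ≤ r := fun s => her _
  have hpc : ∀ s, cl (p s) = c := fun s => hecl _
  -- facts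
  have hfb := fun s : ℕ => class_facts (T := T) (k := p s * D) (I := I (p s)) hB b hu1 (j := c.1)
    (hI (p s)) (hm (p s)) (fun i hi => by have := (hlev (p s) i hi).1; rwa [hpc s] at this)
  have hfd := fun s : ℕ => class_facts (T := T) (k := p s * D) (I := I (p s)) hB d hu1 (j := c.2)
    (hI (p s)) (hm (p s)) (fun i hi => by have := (hlev (p s) i hi).2; rwa [hpc s] at this)
  have hinj : ∀ s, Set.InjOn (fun i => b i - d i) (I (p s) : Set ℕ) := by
    intro s i _ i' _ h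
    simp only [hb, hd] at h
    omega
  have hC : (1 : ℝ) ≤ ((T : ℝ) + 1) ^ 2 := by
    have : (1 : ℝ) ≤ (T : ℝ) + 1 := by
      have := Nat.cast_nonneg (α := ℝ) T
      linarith
    exact one_le_pow₀ this
  have hsum : ∀ s t, s < t → t ≤ 4 →
      (((I (p s)).image d + (I (p t)).image b).card : ℝ) ≤ τ := by
    intro s t hst ht
    have h1 := hp s t hst ht
    have h2 : p s * D < p t * D := Nat.mul_lt_mul_of_pos_right h1 hD
    have h3 : p t * D < N := lt_of_le_of_lt (Nat.mul_le_mul_right _ (hpr t)) hr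
    have h4 := add_subset (a := a) hn ha h2 h3
    rw [← Nat.sub_mul] at h4
    have h5 : (I (p s)).image d + (I (p t)).image b ⊆ Wn n B a ((p t - p s) * D) := by
      refine subset_trans (add_subset_add ?_ ?_) h4
      · exact image_subset_image (hI (p s))
      · exact image_subset_image (hI (p t))
    refine le_trans ?_ (hτ (p t - p s) (by omega) (by have := hpr t; omega))
    unfold sW
    exact_mod_cast card_le_card h5
  have hmain := core_two b d (fun s => I (p s)) hinj (τ := τ)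
    (m := (B : ℝ) / ((T : ℝ) + 1) ^ 2)
    (x := (B : ℝ) / ((T : ℝ) + 1) ^ 2 / u ^ (c.2 + 1))
    (y := (B : ℝ) / ((T : ℝ) + 1) ^ 2 / u ^ (c.1 + 1))
    (δ := 1 / (4 * ((T : ℝ) + 1) ^ 2 * u)) (by positivity)
    (by
      rw [div_le_div_iff₀ (by positivity) (by norm_num)]
      nlinarith)
    (by positivity) (by positivity) (by positivity) hsum
    (fun s _ => hm (p s)) (fun s _ => (hfd s).2.1) (fun s _ => (hfb s).2.1)
    (fun s _ => (hfb s).2.2) (fun s _ => (hfd s).2.2)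
  have hτ0 : 0 ≤ τ := (Nat.cast_nonneg _).trans (hsum 0 1 (by norm_num) (by norm_num))
  -- the product of the levels
  have hlevels : u ^ c.1 * u ^ c.2 ≤ ((T : ℝ) + 1) ^ 2 * B := by
    have h1 := (hfb 0).1
    have h2 := (hfd 0).1
    have h3 : ((I (p 0)).card : ℝ) ≤ ((I (p 0)).image b).card * ((I (p 0)).image d).card := by
      have : (I (p 0)).card ≤ (((I (p 0)).image b) ×ˢ ((I (p 0)).image d)).card := by
        refine card_le_card_of_injOn (fun i => (b i, d i)) ?_ ?_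
        · intro i hi
          rw [mem_coe, mem_product]
          exact ⟨mem_image_of_mem _ hi, mem_image_of_mem _ hi⟩
        · intro i _ i' _ h
          rw [Prod.ext_iff] at h
          simp only [hb, hd] at h
          omega
      rw [card_product] at this
      exact_mod_cast this
    have h4 : (B : ℝ) / ((T : ℝ) + 1) ^ 2 * (u ^ c.1 * u ^ c.2) ≤ (B : ℝ) * B := by
      calc (B : ℝ) / ((T : ℝ) + 1) ^ 2 * (u ^ c.1 * u ^ c.2)
          ≤ (((I (p 0)).image b).card * ((I (p 0)).image d).card) * (u ^ c.1 * u ^ c.2) :=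
            mul_le_mul_of_nonneg_right ((hm (p 0)).trans h3) (by positivity)
        _ = (((I (p 0)).image b).card * u ^ c.1) * (((I (p 0)).image d).card * u ^ c.2) := by ring
        _ ≤ _ := mul_le_mul h1 h2 (by positivity) hBR.le
    have h5 : ((T : ℝ) + 1) ^ 2 * ((B : ℝ) / ((T : ℝ) + 1) ^ 2 * (u ^ c.1 * u ^ c.2)) =
        (u ^ c.1 * u ^ c.2) * B := by
      field_simp
    have h6 := mul_le_mul_of_nonneg_left h4 (show (0 : ℝ) ≤ ((T : ℝ) + 1) ^ 2 by positivity)
    rw [h5] at h6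
    refine le_of_mul_le_mul_right ?_ hBR
    calc (u ^ c.1 * u ^ c.2) * (B : ℝ) ≤ ((T : ℝ) + 1) ^ 2 * (B * B) := h6
      _ = _ := by ring
  unfold K1
  refine params (z := u ^ c.2) (w := u ^ c.1) hBR (by positivity) hu0 (by positivity)
    (by positivity) hτ0 (by rw [mul_comm]; exact hlevels) ?_
  rw [← pow_succ, ← pow_succ]
  exact hmain

end Pool.Agent.H58.Sds2
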