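import Mathlib
import Pool.Agent.H58.Sds2.Five
import Pool.Agent.H66.Sds.Fin

set_option autoImplicit false
open Finset Filter

/-! # The lower bound `22 / 29` -/

namespace Pool.Agent.H58.Sds2

open Pool.Agent.H66.Sds

variable {n B N : ℕ} {a : ℕ → ℤ}

/-- a distance all of whose first multiples have poor windows -/
theorem exists_dist (hB : 1 ≤ B) {r K : ℕ} (hK : 1 ≤ K) :
    ∃ D, 1 ≤ D ∧ D ≤ K ∧ ∀ k, 1 ≤ k → k ≤ r →
      sW n B a (k * D) ≤ 4 * r * ((SV n a).card : ℝ) / K := by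
  have hKR : (0 : ℝ) < K := by exact_mod_cast hK
  have h1 : ∀ k ∈ Ico 1 (r + 1), ∑ D ∈ Ico 1 (K + 1), sW n B a (k * D) ≤
      4 * ((SV n a).card : ℝ) := by
    intro k hk
    rw [mem_Ico] at hk
    refine le_trans ?_ (sum_windows (n := n) (a := a) hB (r * K))
    have h2 : ∑ D ∈ Ico 1 (K + 1), sW n B a (k * D) =
        ∑ e ∈ (Ico 1 (K + 1)).image (fun D => k * D), sW n B a e := by
      rw [sum_image]
      intro x _ y _ hxy
      exact Nat.eq_of_mul_eq_mul_left (by omega) hxy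
    rw [h2]
    refine sum_le_sum_of_subset_of_nonneg ?_ fun e _ _ => sW_nonneg e
    intro e he
    rw [mem_image] at he
    obtain ⟨D, hD, rfl⟩ := he
    rw [mem_Ico] at hD ⊢
    constructor
    · exact Nat.mul_pos (by omega) (by omega)
    · have : k * D ≤ r * K := Nat.mul_le_mul (by omega) (by omega)
      omega
  have h3 : ∑ D ∈ Ico 1 (K + 1), ∑ k ∈ Ico 1 (r + 1), sW n B a (k * D) ≤
      ∑ _D ∈ Ico 1 (K + 1), 4 * r * ((SV n a).card : ℝ) / K := by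
    rw [sum_comm]
    refine (sum_le_sum h1).trans ?_
    rw [sum_const, sum_const, Nat.card_Ico, Nat.card_Ico, nsmul_eq_mul, nsmul_eq_mul,
      Nat.add_sub_cancel, Nat.add_sub_cancel]
    apply le_of_eq
    field_simp
  obtain ⟨D, hD, h4⟩ := exists_le_of_sum_le ⟨1, by rw [mem_Ico]; omega⟩ h3
  rw [mem_Ico] at hD
  refine ⟨D, hD.1, by omega, fun k hk1 hk2 => ?_⟩
  refine le_trans ?_ h4
  exact single_le_sum (f := fun k => sW n B a (k * D)) (fun k _ => sW_nonneg _)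
    (mem_Ico.2 ⟨hk1, by omega⟩)

/-- **The finite lower bound.** -/
theorem low_finite2 (hn : N * B ≤ n) (ha : ∀ i, i < n → 0 ≤ a i ∧ a i < B) (hB : 1 ≤ B) {T K : ℕ}
    {u σ : ℝ} (hu1 : 1 ≤ u) (huT : u ^ T = B) (hK : 1 ≤ K) (hr : 4 * (T + 1) ^ 2 * K < N)
    (hσ : K1 T * u ^ 30 * σ ^ 22 < (B : ℝ) ^ 15) :
    σ * K ≤ 4 * ((4 * (T + 1) ^ 2 : ℕ) : ℝ) * ((SV n a).card : ℝ) := by
  by_contra hcon
  push Not at hcon
  have hKR : (0 : ℝ) < K := by exact_mod_cast hK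
  obtain ⟨D, hD1, hD2, h⟩ := exists_dist (n := n) (a := a) hB (r := 4 * (T + 1) ^ 2) hK
  have h1 := five hn ha hB hu1 huT (lt_of_le_of_lt (Nat.mul_le_mul_left _ hD2) hr) hD1 h
  have h2 : 4 * ((4 * (T + 1) ^ 2 : ℕ) : ℝ) * ((SV n a).card : ℝ) / K ≤ σ := by
    rw [div_le_iff₀ hKR]
    exact hcon.le
  have h3 : (0 : ℝ) ≤ 4 * ((4 * (T + 1) ^ 2 : ℕ) : ℝ) * ((SV n a).card : ℝ) / K := by positivity
  have hu0 : 0 < u := lt_of_lt_of_le one_pos hu1
  have h4 : K1 T * u ^ 30 *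
      (4 * ((4 * (T + 1) ^ 2 : ℕ) : ℝ) * ((SV n a).card : ℝ) / K) ^ 22 ≤
      K1 T * u ^ 30 * σ ^ 22 :=
    mul_le_mul_of_nonneg_left (pow_le_pow_left₀ h3 h2 22) (by have := K1_pos T; positivity)
  linarith

theorem PP_of_lt {c : ℝ} (hc0 : 0 < c) (hc : c < 22 / 29) : PP c := by
  -- the number of classes
  obtain ⟨T, hT2, hT⟩ : ∃ T : ℕ, 2 ≤ T ∧ c * (29 / 22 + 30 / (22 * (T : ℝ))) ≤ 1 := by
    have h1 : 0 < 1 - c * (29 / 22) := by linarith
    obtain ⟨T, hT⟩ := exists_nat_gt (c * 30 / (22 * (1 - c * (29 / 22))))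
    refine ⟨T + 2, by omega, ?_⟩
    have hT' : c * 30 / (22 * (1 - c * (29 / 22))) < ((T + 2 : ℕ) : ℝ) := by
      push_cast; linarith
    have h0 : (0 : ℝ) < ((T + 2 : ℕ) : ℝ) := by positivity
    have h2 : c * 30 / (22 * ((T + 2 : ℕ) : ℝ)) ≤ 1 - c * (29 / 22) := by
      rw [div_le_iff₀ (by positivity)]
      rw [div_lt_iff₀ (by positivity)] at hT'
      nlinarith
    have h3 : c * (29 / 22 + 30 / (22 * ((T + 2 : ℕ) : ℝ))) =
        c * (29 / 22) + c * 30 / (22 * ((T + 2 : ℕ) : ℝ)) := by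
      ring
    linarith
  set t : ℝ := (T : ℝ) with ht
  have ht2 : (2 : ℝ) ≤ t := by rw [ht]; exact_mod_cast hT2
  have ht0 : 0 < t := by linarith
  set r : ℕ := 4 * (T + 1) ^ 2 with hr
  have hr1 : 1 ≤ r := by rw [hr]; exact Nat.succ_le_of_lt (by positivity)
  have hr0 : (0 : ℝ) < r := by exact_mod_cast hr1
  obtain ⟨c2, hc20, hc21, hc2⟩ : ∃ c2 : ℝ, 0 < c2 ∧ c2 ≤ 1 ∧ K1 T * c2 ^ 22 < 1 := by
    have hK1 := K1_pos T
    have h1 : 1 / (K1 T + 1) ≤ 1 := by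
      rw [div_le_one (by positivity)]; linarith
    refine ⟨1 / (K1 T + 1), by positivity, h1, ?_⟩
    have h2 : (1 / (K1 T + 1)) ^ 22 ≤ (1 / (K1 T + 1)) ^ 1 :=
      pow_le_pow_of_le_one (by positivity) h1 (by norm_num)
    calc K1 T * (1 / (K1 T + 1)) ^ 22 ≤ K1 T * (1 / (K1 T + 1)) ^ 1 :=
          mul_le_mul_of_nonneg_left h2 hK1.le
      _ < 1 := by
          rw [pow_one, mul_one_div, div_lt_one (by positivity)]
          linarith
  refine ⟨c2 / (16 * r ^ 2), by positivity, ?_⟩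
  have hlim : ∀ᶠ n : ℕ in atTop, 4 * (1 + (r : ℝ)) ≤ (n : ℝ) ^ (1 - c) :=
    ((tendsto_rpow_atTop (show 0 < 1 - c by linarith)).comp
      tendsto_natCast_atTop_atTop).eventually_ge_atTop _
  obtain ⟨n0, hn0⟩ := eventually_atTop.1 (hlim.and (eventually_ge_atTop 1))
  refine ⟨n0, fun n hn a ha => ?_⟩
  obtain ⟨hlarge, hn1⟩ := hn0 n hn
  have hnR : (1 : ℝ) ≤ n := by exact_mod_cast hn1
  have hn0' : (0 : ℝ) < n := by linarith
  have hnc1 : (1 : ℝ) ≤ (n : ℝ) ^ c := Real.one_le_rpow hnR hc0.le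
  set B : ℕ := ⌊(n : ℝ) ^ c⌋₊ + 1 with hB
  have hBge : (n : ℝ) ^ c ≤ B := by
    rw [hB]; push_cast
    exact (Nat.lt_floor_add_one _).le
  have hBle : (B : ℝ) ≤ 2 * (n : ℝ) ^ c := by
    rw [hB]; push_cast
    have := Nat.floor_le (show (0 : ℝ) ≤ (n : ℝ) ^ c by positivity)
    linarith
  have hB1 : 1 ≤ B := by omega
  have hBR1 : (1 : ℝ) ≤ B := by exact_mod_cast hB1
  have hB0 : (0 : ℝ) < B := by linarith
  set N : ℕ := n / B with hN
  have hNB : N * B ≤ n := Nat.div_mul_le_self _ _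
  set K : ℕ := (N - 1) / r with hK
  -- sizes
  have hNge : (n : ℝ) ^ (1 - c) / 2 - 1 ≤ N := by
    have h1 : (n : ℝ) / B < N + 1 := by
      rw [div_lt_iff₀ hB0]
      have := Nat.lt_div_mul_add (a := n) (b := B) (by omega)
      have h2 : (n : ℝ) < (N : ℝ) * B + B := by exact_mod_cast this
      nlinarith
    have h2 : (n : ℝ) ^ (1 - c) / 2 ≤ (n : ℝ) / B := by
      rw [div_le_div_iff₀ (by norm_num) hB0]
      calc (n : ℝ) ^ (1 - c) * B ≤ (n : ℝ) ^ (1 - c) * (2 * (n : ℝ) ^ c) :=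
            mul_le_mul_of_nonneg_left hBle (by positivity)
        _ = ((n : ℝ) ^ (1 - c) * (n : ℝ) ^ c) * 2 := by ring
        _ = n * 2 := by
          rw [← Real.rpow_add hn0', sub_add_cancel, Real.rpow_one]
    linarith
  have hN1 : 1 ≤ N := by
    have : (0 : ℝ) < N := by nlinarith
    exact_mod_cast this
  have hrK : r * K < N := by
    have h := Nat.mul_div_le (N - 1) r
    rw [← hK] at h
    omega
  have hKge : (n : ℝ) ^ (1 - c) / (4 * r) ≤ (K : ℝ) := by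
    have h1 : N - 1 < r * K + r := by
      have h := Nat.lt_div_mul_add (a := N - 1) (b := r) (by omega)
      rw [← hK] at h
      rw [mul_comm]
      exact h
    have h2 : (N : ℝ) ≤ r * K + r := by
      have : N ≤ r * K + r := by omega
      exact_mod_cast this
    rw [div_le_iff₀ (by positivity)]
    nlinarith
  have hK1 : 1 ≤ K := by
    have h1 : (0 : ℝ) < (n : ℝ) ^ (1 - c) / (4 * r) := by positivity
    have : (0 : ℝ) < K := h1.trans_le hKge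
    exact_mod_cast this
  -- the exponents
  set θ : ℝ := (15 - 30 / t) / 22 with hθ
  have hθ0 : 0 ≤ θ := by
    rw [hθ]
    have : 30 / t ≤ 15 := by
      rw [div_le_iff₀ ht0]; linarith
    apply div_nonneg _ (by norm_num)
    linarith
  set u : ℝ := (B : ℝ) ^ (1 / t) with hu
  set σ : ℝ := c2 * (B : ℝ) ^ θ with hσ
  have hu1 : 1 ≤ u := Real.one_le_rpow hBR1 (by positivity)
  have huT : u ^ T = B := by
    rw [hu, ← Real.rpow_natCast, ← Real.rpow_mul hB0.le, ← ht, one_div,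
      inv_mul_cancel₀ ht0.ne', Real.rpow_one]
  have hσ22 : K1 T * u ^ 30 * σ ^ 22 < (B : ℝ) ^ 15 := by
    have e1 : u ^ 30 * ((B : ℝ) ^ θ) ^ 22 = (B : ℝ) ^ 15 := by
      rw [hu, ← Real.rpow_natCast (_ ^ (1 / t)) 30, ← Real.rpow_mul hB0.le,
        ← Real.rpow_natCast (_ ^ θ) 22, ← Real.rpow_mul hB0.le, ← Real.rpow_add hB0,
        ← Real.rpow_natCast (B : ℝ) 15]
      congr 1
      rw [hθ]
      push_cast
      field_simp
      ring
    calc K1 T * u ^ 30 * σ ^ 22 = (K1 T * c2 ^ 22) * (u ^ 30 * ((B : ℝ) ^ θ) ^ 22) := by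
          rw [hσ, mul_pow]; ring
      _ = (K1 T * c2 ^ 22) * (B : ℝ) ^ 15 := by rw [e1]
      _ < 1 * (B : ℝ) ^ 15 := mul_lt_mul_of_pos_right hc2 (by positivity)
      _ = _ := one_mul _
  have hab : ∀ i, i < n → 0 ≤ Pool.Agent.H66.Sds.ext a i ∧ Pool.Agent.H66.Sds.ext a i < B := by
    intro i hi
    unfold Pool.Agent.H66.Sds.ext
    rw [dif_pos hi]
    refine ⟨Int.natCast_nonneg _, ?_⟩
    have h1 : a ⟨i, hi⟩ ≤ ⌊(n : ℝ) ^ c⌋₊ := Nat.le_floor (ha _)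
    rw [hB]
    exact_mod_cast Nat.lt_succ_of_le h1
  have hmain := low_finite2 hNB hab hB1 hu1 huT hK1 hrK hσ22
  rw [← hr] at hmain
  rw [VS_eq, Set.ncard_coe_finset]
  -- assembling
  have h1 : c2 * (n : ℝ) ^ (c * θ) ≤ σ := by
    rw [hσ, Real.rpow_mul hn0'.le]
    exact mul_le_mul_of_nonneg_left (Real.rpow_le_rpow (by positivity) hBge hθ0) hc20.le
  have h2 : (n : ℝ) ^ c ≤ (n : ℝ) ^ (c * θ) * (n : ℝ) ^ (1 - c) := by
    rw [← Real.rpow_add hn0']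
    apply Real.rpow_le_rpow_of_exponent_le hnR
    have e1 : c * (29 / 22 + 30 / (22 * t)) = c * 2 - c * θ := by
      rw [hθ]
      field_simp
      ring
    linarith
  have h3 : (c2 * (n : ℝ) ^ (c * θ)) * ((n : ℝ) ^ (1 - c) / (4 * r)) ≤ σ * K :=
    mul_le_mul h1 hKge (by positivity) (by positivity)
  have h4 : c2 * (n : ℝ) ^ c / (4 * r) ≤ 4 * r * ((SV n (Pool.Agent.H66.Sds.ext a)).card : ℝ) := by
    calc c2 * (n : ℝ) ^ c / (4 * r)
        ≤ (c2 * ((n : ℝ) ^ (c * θ) * (n : ℝ) ^ (1 - c))) / (4 * r) :=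
          div_le_div_of_nonneg_right (mul_le_mul_of_nonneg_left h2 hc20.le) (by positivity)
      _ = (c2 * (n : ℝ) ^ (c * θ)) * ((n : ℝ) ^ (1 - c) / (4 * r)) := by ring
      _ ≤ _ := h3.trans hmain
  have h5 : c2 / (16 * r ^ 2) * (n : ℝ) ^ c = c2 * (n : ℝ) ^ c / (4 * r) / (4 * r) := by
    field_simp
    ring
  rw [h5, div_le_iff₀ (by positivity)]
  linarith

theorem low22 {c : ℝ} (h0 : 0 ≤ c) (h : c < 22 / 29) : PP c := by
  obtain ⟨c1, h1, h2⟩ := exists_between h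
  exact PP_mono h1.le (PP_of_lt (h0.trans_lt h1) h2)

end Pool.Agent.H58.Sds2
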